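import Mathlib

set_option autoImplicit false
open Complex

namespace Pool.Agent.Results.MP_c4a6c0_an.Gauss

/-- `F` has monotonic zeros in the closed first quadrant -/
def MonoZeros (F : ℂ → ℂ) : Prop :=
  F ≠ 0 ∧ ∀ α β : ℂ, 0 ≤ α.re → 0 ≤ α.im → 0 ≤ β.re → 0 ≤ β.im → F α = 0 → F β = 0 →
    (α.re = β.re → α = β) ∧ (α.re < β.re → α.im ≤ β.im)

/-- even, real, entire -/
def EvenRealEntire (f : ℂ → ℂ) : Prop :=
  Differentiable ℂ f ∧ (∀ z, f (-z) = f z) ∧ ∀ x : ℝ, (f x).im = 0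

/-- every nonnegative combination supported on `S` that is not identically zero has
monotonic zeros -/
def Compatible {k : ℕ} (f : Fin k → ℂ → ℂ) (S : Finset (Fin k)) : Prop :=
  ∀ c : Fin k → ℝ, (∀ j, 0 ≤ c j) → (fun z => ∑ j ∈ S, (c j : ℂ) * f j z) ≠ 0 →
    MonoZeros fun z => ∑ j ∈ S, (c j : ℂ) * f j z

noncomputable def f (j : Fin 3) (z : ℂ) : ℂ := exp ((j : ℕ) * z ^ 2)

lemma level {F : ℂ → ℂ} (h0 : F ≠ 0) (L : ℝ) (h : ∀ z, F z = 0 → (z ^ 2).re = L) :
    MonoZeros F := by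
  refine ⟨h0, fun α β a1 a2 b1 b2 ha hb => ?_⟩
  have e : α.re ^ 2 - α.im ^ 2 = β.re ^ 2 - β.im ^ 2 := by
    have := (h α ha).trans (h β hb).symm
    simpa [sq] using this
  constructor
  · intro h1
    refine Complex.ext h1 ?_
    rw [h1] at e
    exact (pow_left_inj₀ a2 b2 two_ne_zero).1 (by linarith)
  · intro h1
    by_contra h2
    nlinarith [not_le.1 h2]

lemma pair (i j : Fin 3) (hij : i < j) : Compatible f {i, j} := by
  intro c hc h0
  refine level h0 ((Real.log (c i) - Real.log (c j)) / ((j : ℕ) - (i : ℕ))) fun z hz => ?_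
  simp only [Finset.sum_pair hij.ne, f] at hz h0
  have hn := congrArg norm (eq_neg_of_add_eq_zero_left hz)
  simp only [norm_neg, norm_mul, norm_real, norm_exp, Real.norm_of_nonneg (hc _), mul_re,
    natCast_re, natCast_im, zero_mul, sub_zero] at hn
  have hi : c i ≠ 0 := by
    intro h
    rw [h, zero_mul, eq_comm, mul_eq_zero] at hn
    have hj := hn.resolve_right (Real.exp_pos _).ne'
    exact h0 (by funext z; simp [h, hj])
  have hj : c j ≠ 0 := by
    intro h
    rw [h, zero_mul, mul_eq_zero] at hn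
    exact hi (hn.resolve_right (Real.exp_pos _).ne')
  have hl := congrArg Real.log hn
  rw [Real.log_mul hi (Real.exp_pos _).ne', Real.log_mul hj (Real.exp_pos _).ne', Real.log_exp,
    Real.log_exp] at hl
  have : ((i : ℕ) : ℝ) < (j : ℕ) := by exact_mod_cast hij
  rw [eq_div_iff (by linarith)]
  linarith

lemma root (L : ℝ) : ∃ z : ℂ, 0 ≤ z.re ∧ 0 ≤ z.im ∧ z ^ 2 = L + Real.pi * I := by
  obtain ⟨z, hz⟩ := IsAlgClosed.exists_pow_nat_eq ((L : ℂ) + Real.pi * I) two_pos
  have h := congrArg im hz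
  simp [sq] at h
  have hp : 0 < z.re * z.im := by nlinarith [Real.pi_pos]
  rcases mul_pos_iff.1 hp with ⟨a, b⟩ | ⟨a, b⟩
  · exact ⟨z, a.le, b.le, hz⟩
  · exact ⟨-z, by simpa using a.le, by simpa using b.le, by rw [neg_sq, hz]⟩

theorem result : ∃ (k : ℕ) (f : Fin k → ℂ → ℂ), 3 ≤ k ∧
    (∀ j, EvenRealEntire (f j) ∧ MonoZeros (f j)) ∧
    (∀ i j, i < j → Compatible f {i, j}) ∧ ¬ Compatible f Finset.univ := by
  refine ⟨3, f, le_rfl, fun j => ⟨⟨by unfold f; fun_prop, fun z => by simp [f], fun x => ?_⟩,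
    level (fun h => exp_ne_zero _ (congrFun h 0)) 0 fun z hz => absurd hz (exp_ne_zero _)⟩,
    pair, fun h => ?_⟩
  · have : f j x = (Real.exp ((j : ℕ) * x ^ 2) : ℝ) := by simp [f]
    rw [this, ofReal_im]
  · have e : ∀ z, ∑ j, ((![2, 3, 1] j : ℝ) : ℂ) * f j z =
        (exp (z ^ 2) + 1) * (exp (z ^ 2) + 2) := by
      intro z
      simp [f, Fin.sum_univ_three, two_mul, exp_add]; ring
    obtain ⟨-, h2⟩ := h ![2, 3, 1] (fun j => by fin_cases j <;> simp) (fun h0 => by
      have := congrFun h0 0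
      rw [e] at this
      norm_num at this)
    obtain ⟨α, a1, a2, a3⟩ := root 0
    obtain ⟨β, b1, b2, b3⟩ := root (Real.log 2)
    have ha : exp (α ^ 2) + 1 = 0 := by rw [a3]; simp [exp_pi_mul_I]
    have hb : exp (β ^ 2) + 2 = 0 := by
      rw [b3, exp_add, exp_pi_mul_I, ← ofReal_exp, Real.exp_log two_pos]; norm_num
    have h3 := (h2 α β a1 a2 b1 b2 ((e α).trans (by rw [ha, zero_mul]))
      ((e β).trans (by rw [hb, mul_zero]))).2
    have r1 := congrArg re a3
    have i1 := congrArg im a3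
    have r2 := congrArg re b3
    have i2 := congrArg im b3
    simp only [sq, mul_re, mul_im, add_re, add_im, ofReal_re, ofReal_im, I_re, I_im] at r1 i1 r2 i2
    have hl := Real.log_pos one_lt_two
    have hpi := Real.pi_pos
    have e1 : α.re = α.im := (pow_left_inj₀ a1 a2 two_ne_zero).1 (by nlinarith)
    have e2 : β.im < β.re := by by_contra hc; nlinarith [not_lt.1 hc]
    rw [← e1] at i1 h3
    have e3 : α.re < β.re := by by_contra hc; nlinarith [not_lt.1 hc]
    have e4 := h3 e3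
    have e5 : 0 < α.re := by by_contra hc; nlinarith [not_lt.1 hc]
    nlinarith [mul_le_mul_of_nonneg_left e4 b1, mul_pos e5 (sub_pos.2 e3)]

end Pool.Agent.Results.MP_c4a6c0_an.Gauss
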